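import Pool.Agent.J4H13.LC.Jobs2

/-!
# Project LC of helper13, stage 2, job CONH (helper57)
-/

set_option autoImplicit false

open MvPolynomial FF

namespace Pool.Agent.J4H57.LC

open Pool.Agent.J4H13.LC
open Pool.Agent.J4H13.BC Pool.Agent.J4H13.LA Pool.Agent.J4H13.BD Pool.Agent.W602.GT
  Pool.Agent.W603.LV Pool.Agent.Helper397.HK

section

variable {K : Type} [Field K] [Algebra ℂ K]

/-- the first part -/
theorem conh_one (k₀ : IntermediateField ℂ K) (w : K) [Fintype (K ≃ₐ[k₀] K)]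
    (hfin : FiniteDimensional k₀ K) (hgal : IsGalois k₀ K) {N : ℕ} (ξ : Fin (N + 1) → K)
    (Γ : (K ≃ₐ[k₀] K) → ℚ) (hΓ1 : ∀ σ, σ w = w → Γ σ = 1) (hΓ0 : ∀ σ, σ w ≠ w → Γ σ = 0)
    (L : IntermediateField ℂ K) (hkL : k₀ ≤ L) (hwL : w ∈ L) (hL : Emb L) :
    Con (fun σ : K ≃ₐ[k₀] K => (σ.restrictScalars ℂ : K ≃ₐ[ℂ] K)) Γ ξ := by
  classical
  let G := K ≃ₐ[k₀] K
  have hcomm : SMulCommClass G ℂ K := by
    refine ⟨fun σ c x => ?_⟩
    change σ (c • x) = c • σ x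
    rw [Algebra.smul_def, Algebra.smul_def, map_mul]
    congr 1
    exact σ.commutes (algebraMap ℂ k₀ c)
  let H : Unit → Subgroup G := fun _ => MulAction.stabilizer G w
  have hmem : ∀ σ : G, σ ∈ MulAction.stabilizer G w ↔ σ w = w := fun σ =>
    MulAction.mem_stabilizer_iff
  refine machine_corr G Γ H (fun _ => 1) ?_ ?_ ξ
  · intro σ
    rw [Fintype.sum_unique]
    by_cases h : σ w = w
    · rw [hΓ1 σ h, if_pos ((hmem σ).2 h)]
    · rw [hΓ0 σ h, if_neg fun h' => h ((hmem σ).1 h')]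
  · intro _
    obtain ⟨m, ⟨j⟩⟩ := hL
    have hle : ∀ x ∈ FixedPoints.subalgebra ℂ K (MulAction.stabilizer G w), x ∈ L := by
      intro x hx
      have h1 : x ∈ IntermediateField.fixedField
          (IntermediateField.fixingSubgroup (IntermediateField.adjoin k₀ {w})) := by
        rw [IntermediateField.mem_fixedField_iff]
        intro σ hσ
        have h2 : σ ∈ MulAction.stabilizer G w := by
          rw [MulAction.mem_stabilizer_iff]
          exact (IntermediateField.mem_fixingSubgroup_iff _ _).1 hσ _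
            (IntermediateField.mem_adjoin_simple_self k₀ _)
        exact hx ⟨σ, h2⟩
      rw [IsGalois.fixedField_fixingSubgroup] at h1
      have h3 : (IntermediateField.adjoin k₀ {w}).restrictScalars ℂ ≤ L := by
        intro z hz
        have h4 : IntermediateField.adjoin k₀ {w} ≤
            IntermediateField.extendScalars hkL := by
          rw [IntermediateField.adjoin_simple_le_iff]
          exact hwL
        exact h4 hz
      exact h3 h1
    let ε : FixedPoints.subalgebra ℂ K (MulAction.stabilizer G w) →ₐ[ℂ] L :=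
      Subalgebra.inclusion (S := FixedPoints.subalgebra ℂ K (MulAction.stabilizer G w))
        (T := L.toSubalgebra) hle
    exact ⟨m, j.comp ε, j.injective.comp (Subalgebra.inclusion_injective hle)⟩

/-- an automorphism over a larger field -/
noncomputable def up {k₀ F : IntermediateField ℂ K} (h : k₀ ≤ F) (τ : K ≃ₐ[F] K) : K ≃ₐ[k₀] K :=
  { τ.toRingEquiv with commutes' := fun x => τ.commutes ⟨x.1, h x.2⟩ }

theorem up_apply {k₀ F : IntermediateField ℂ K} (h : k₀ ≤ F) (τ : K ≃ₐ[F] K) (x : K) :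
    up h τ x = τ x := rfl

/-- an automorphism over `k₀` which fixes `w` is an automorphism over `k₀ ⊔ ℂ(w)` -/
theorem exists_down {k₀ F : IntermediateField ℂ K} (h : k₀ ≤ F) (w : K)
    (hF : F = k₀ ⊔ IntermediateField.adjoin ℂ ({w} : Set K)) (σ : K ≃ₐ[k₀] K) (hσ : σ w = w) :
    ∃ τ : K ≃ₐ[F] K, up h τ = σ := by
  have hfix : ∀ x ∈ F, σ x = x := by
    let ρ : K ≃ₐ[ℂ] K := σ.restrictScalars ℂ
    have h1 : F ≤ IntermediateField.fixedField (Subgroup.zpowers ρ) := by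
      rw [hF]
      apply sup_le
      · intro x hx
        rw [IntermediateField.mem_fixedField_iff]
        intro τ hτ
        have h2 : Subgroup.zpowers ρ ≤ MulAction.stabilizer (K ≃ₐ[ℂ] K) x := by
          rw [Subgroup.zpowers_le, MulAction.mem_stabilizer_iff]
          exact σ.commutes ⟨x, hx⟩
        exact h2 hτ
      · rw [IntermediateField.adjoin_simple_le_iff, IntermediateField.mem_fixedField_iff]
        intro τ hτ
        have h2 : Subgroup.zpowers ρ ≤ MulAction.stabilizer (K ≃ₐ[ℂ] K) w := by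
          rw [Subgroup.zpowers_le, MulAction.mem_stabilizer_iff]
          exact hσ
        exact h2 hτ
    intro x hx
    exact (IntermediateField.mem_fixedField_iff _ _).1 (h1 hx) ρ (Subgroup.mem_zpowers ρ)
  refine ⟨{ σ.toRingEquiv with commutes' := fun x => hfix x.1 x.2 }, ?_⟩
  ext x
  rfl

/-- the second part -/
theorem conh_two (k₀ : IntermediateField ℂ K) (w : K) [Fintype (K ≃ₐ[k₀] K)]
    {N : ℕ} (ξ : Fin (N + 1) → K)
    (Γ : (K ≃ₐ[k₀] K) → ℚ) (hΓ1 : ∀ σ, σ w = w → Γ σ = 1) (hΓ0 : ∀ σ, σ w ≠ w → Γ σ = 0)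
    (F : IntermediateField ℂ K) [Fintype (K ≃ₐ[F] K)]
    (hF : F = k₀ ⊔ IntermediateField.adjoin ℂ ({w} : Set K))
    (hcon : Con (fun σ : K ≃ₐ[F] K => (σ.restrictScalars ℂ : K ≃ₐ[ℂ] K)) (fun _ => 1) ξ) :
    Con (fun σ : K ≃ₐ[k₀] K => (σ.restrictScalars ℂ : K ≃ₐ[ℂ] K)) Γ ξ := by
  classical
  have hle : k₀ ≤ F := by rw [hF]; exact le_sup_left
  have hwF : w ∈ F := by
    rw [hF]
    exact (le_sup_right : IntermediateField.adjoin ℂ ({w} : Set K) ≤ _)
      (IntermediateField.mem_adjoin_simple_self ℂ w)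
  obtain ⟨B₁, hB₁, hfg, hc⟩ := hcon
  obtain ⟨A, hA⟩ : ∃ A : Subalgebra ℂ K,
    A = Algebra.adjoin ℂ (Set.range fun p : (K ≃ₐ[k₀] K) × Fin (N + 1) => p.1 (ξ p.2)) := ⟨_, rfl⟩
  have hAmem : ∀ (σ : K ≃ₐ[k₀] K) i, σ (ξ i) ∈ A := by
    intro σ i
    rw [hA]
    exact Algebra.subset_adjoin ⟨(σ, i), rfl⟩
  have hAfg : A.FG := by
    rw [hA]
    exact Subalgebra.fg_def.2 ⟨_, Set.finite_range _, rfl⟩
  refine ⟨A ⊔ B₁, fun σ i => (le_sup_left : A ≤ A ⊔ B₁) (hAmem σ i), hAfg.sup hfg, ?_⟩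
  intro Y hY φ φ' p p' hp hp'
  have hres : ∀ ψ : (A ⊔ B₁ : Subalgebra ℂ K) →ₐ[ℂ] ℂ, ∀ q : (K ≃ₐ[k₀] K) → Y.Pts ℂ,
      (∀ (σ : K ≃ₐ[k₀] K) i, (q σ).1 i = ψ ⟨σ.restrictScalars ℂ (ξ i),
        (le_sup_left : A ≤ A ⊔ B₁) (hAmem σ i)⟩) →
      ∀ (τ : K ≃ₐ[F] K) i, (q (up hle τ)).1 i =
        (ψ.comp (Subalgebra.inclusion (le_sup_right : B₁ ≤ A ⊔ B₁))) ⟨τ.restrictScalars ℂ (ξ i), hB₁ τ i⟩ := by
    intro ψ q hq τ i
    rw [hq]
    rfl
  have h1 := hc Y hY (φ.comp (Subalgebra.inclusion (le_sup_right : B₁ ≤ A ⊔ B₁)))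
    (φ'.comp (Subalgebra.inclusion (le_sup_right : B₁ ≤ A ⊔ B₁)))
    (fun τ => p (up hle τ)) (fun τ => p' (up hle τ)) (hres φ p hp) (hres φ' p' hp')
  have hsum : ∀ q : (K ≃ₐ[k₀] K) → Y.Pts ℂ, ∑ σ, Γ σ • cls (q σ) =
      ∑ τ : K ≃ₐ[F] K, (1 : ℚ) • cls (q (up hle τ)) := by
    intro q
    have h2 : ∀ σ : K ≃ₐ[k₀] K, Γ σ • cls (q σ) = if σ w = w then (1 : ℚ) • cls (q σ) else 0 := by
      intro σ
      by_cases h : σ w = w
      · rw [if_pos h, hΓ1 σ h]
      · rw [if_neg h, hΓ0 σ h, zero_smul]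
    rw [Finset.sum_congr rfl fun σ _ => h2 σ, ← Finset.sum_filter]
    symm
    apply Finset.sum_bij (fun (τ : K ≃ₐ[F] K) _ => up hle τ)
    · intro τ _
      rw [Finset.mem_filter]
      exact ⟨Finset.mem_univ _, τ.commutes ⟨w, hwF⟩⟩
    · intro τ₁ _ τ₂ _ h
      ext x
      exact DFunLike.congr_fun h x
    · intro σ hσ
      rw [Finset.mem_filter] at hσ
      obtain ⟨τ, hτ⟩ := exists_down hle w hF σ hσ.2
      exact ⟨τ, Finset.mem_univ _, hτ⟩
    · intro τ _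
      rfl
  rw [hsum, hsum]
  exact h1

end

theorem t_CONH : S_CONH := by
  classical
  intro K _ _ k₀ w _ hfin hgal N ξ
  refine ⟨?_, ?_⟩
  · rintro ⟨L, h1, h2, h3⟩
    exact conh_one k₀ w hfin hgal ξ _ (fun σ h => if_pos h) (fun σ h => if_neg h) L h1 h2 h3
  · intro F _ hF hcon
    exact conh_two k₀ w ξ _ (fun σ h => if_pos h) (fun σ h => if_neg h) F hF hcon

end Pool.Agent.J4H57.LC
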