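import Pool.Agent.J4H57.LC.Conh

/-!
# Project LC of helper13, stage 2, job KCON (helper57)
-/

set_option autoImplicit false

open MvPolynomial FF

namespace Pool.Agent.J4H57.LC

open Pool.Agent.J4H13.LC
open Pool.Agent.J4H13.BC Pool.Agent.J4H13.LA Pool.Agent.J4H13.BD Pool.Agent.W602.GT
  Pool.Agent.W603.LV Pool.Agent.Helper397.HK

/-- `Con` is linear -/
theorem con_lin {K : Type} [Field K] [Algebra ℂ K] {G : Type} [Fintype G] (r : G → K ≃ₐ[ℂ] K)
    (Γ : G → ℚ) {ι : Type} [Fintype ι] (Γi : ι → G → ℚ) (hΓ : ∀ σ, Γ σ = ∑ i, Γi i σ)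
    {N : ℕ} (ξ : Fin (N + 1) → K) (h : ∀ i, ∃ (a : ℚ) (Δ : G → ℚ), (∀ σ, Γi i σ = a * Δ σ) ∧ Con r Δ ξ) :
    Con r Γ ξ := by
  classical
  choose a Δ hΔ hcon using h
  choose B hB hfg hc using hcon
  obtain ⟨A, hA⟩ : ∃ A : Subalgebra ℂ K,
    A = Algebra.adjoin ℂ (Set.range fun p : G × Fin (N + 1) => r p.1 (ξ p.2)) := ⟨_, rfl⟩
  have hAmem : ∀ (σ : G) i, r σ (ξ i) ∈ A := by
    intro σ i
    rw [hA]
    exact Algebra.subset_adjoin ⟨(σ, i), rfl⟩
  have hAfg : A.FG := by
    rw [hA]
    exact Subalgebra.fg_def.2 ⟨_, Set.finite_range _, rfl⟩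
  have hall : ∀ s : Finset ι, ∃ E : Subalgebra ℂ K, E.FG ∧ A ≤ E ∧ ∀ i ∈ s, B i ≤ E := by
    intro s
    induction s using Finset.induction_on with
    | empty => exact ⟨A, hAfg, le_rfl, fun i hi => absurd hi (Finset.notMem_empty i)⟩
    | insert i s _ ih =>
      obtain ⟨E, h1, h2, h3⟩ := ih
      refine ⟨E ⊔ B i, h1.sup (hfg i), h2.trans le_sup_left, ?_⟩
      intro j hj
      rcases Finset.mem_insert.1 hj with rfl | hj
      · exact le_sup_right
      · exact (h3 j hj).trans le_sup_left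
  obtain ⟨E, hEfg, hAE, hBE⟩ := hall Finset.univ
  refine ⟨E, fun σ i => hAE (hAmem σ i), hEfg, ?_⟩
  intro Y hY φ φ' p p' hp hp'
  have h1 : ∀ i, ∑ σ, Δ i σ • cls (p σ) = ∑ σ, Δ i σ • cls (p' σ) := by
    intro i
    apply hc i Y hY (φ.comp (Subalgebra.inclusion (hBE i (Finset.mem_univ i))))
      (φ'.comp (Subalgebra.inclusion (hBE i (Finset.mem_univ i)))) p p'
    · intro σ k
      rw [hp]
      rfl
    · intro σ k
      rw [hp']
      rfl
  have h2 : ∀ q : G → Y.Pts ℂ, ∑ σ, Γ σ • cls (q σ) = ∑ i, a i • ∑ σ, Δ i σ • cls (q σ) := by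
    intro q
    simp only [Finset.smul_sum, smul_smul]
    rw [Finset.sum_comm]
    refine Finset.sum_congr rfl fun σ _ => ?_
    rw [hΓ σ, Finset.sum_smul]
    refine Finset.sum_congr rfl fun i _ => ?_
    rw [hΔ i σ]
  rw [h2, h2]
  exact Finset.sum_congr rfl fun i _ => by rw [h1 i]

section

variable {K : Type} [Field K] [Algebra ℂ K] {k₀ : IntermediateField ℂ K} {k : ℕ} {w : Fin k → K}

theorem kcon (hw : ∀ i, w i ^ 2 ∈ k₀) (hw0 : ∀ i, w i ≠ 0)
    (hgen : IntermediateField.adjoin k₀ (Set.range w) = ⊤) [Fintype (K ≃ₐ[k₀] K)]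
    (Γ : (K ≃ₐ[k₀] K) → ℚ) (hk₀ : Emb k₀) {N : ℕ} (ξ : Fin (N + 1) → K)
    (hcon : ∀ S : Finset (Fin k), ∑ σ, (Γ σ : K) * σ (∏ i ∈ S, w i) ≠ 0 →
      ∃ Δ : (K ≃ₐ[k₀] K) → ℚ, (∀ σ, σ (∏ i ∈ S, w i) = ∏ i ∈ S, w i → Δ σ = 1) ∧
        (∀ σ, σ (∏ i ∈ S, w i) ≠ ∏ i ∈ S, w i → Δ σ = 0) ∧
      Con (fun σ : K ≃ₐ[k₀] K => (σ.restrictScalars ℂ : K ≃ₐ[ℂ] K)) Δ ξ) :
    Con (fun σ : K ≃ₐ[k₀] K => (σ.restrictScalars ℂ : K ≃ₐ[ℂ] K)) Γ ξ := by
  classical
  obtain ⟨hfin, hgal⟩ := isGalois_sqrt hw hgen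
  let G := K ≃ₐ[k₀] K
  have hcomm : SMulCommClass G ℂ K := by
    refine ⟨fun σ c x => ?_⟩
    change σ (c • x) = c • σ x
    rw [Algebra.smul_def, Algebra.smul_def, map_mul]
    congr 1
    exact σ.commutes (algebraMap ℂ k₀ c)
  -- the signs
  have hsign : ∀ (σ : G) (i : Fin k), ∃ e : ℤ, (e = 1 ∨ e = -1) ∧ σ (w i) = (e : K) * w i := by
    intro σ i
    have h1 : σ (w i) ^ 2 = w i ^ 2 := by
      rw [← map_pow]
      exact σ.commutes ⟨w i ^ 2, hw i⟩
    rcases sq_eq_sq_iff_eq_or_eq_neg.1 h1 with h2 | h2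
    · exact ⟨1, Or.inl rfl, by rw [h2, Int.cast_one, one_mul]⟩
    · exact ⟨-1, Or.inr rfl, by rw [h2]; push_cast; ring⟩
  choose e he hew using hsign
  let wS : Finset (Fin k) → K := fun S => ∏ i ∈ S, w i
  have hwS0 : ∀ S, wS S ≠ 0 := fun S => Finset.prod_ne_zero_iff.2 fun i _ => hw0 i
  have hσS : ∀ (σ : G) (S), σ (wS S) = ((∏ i ∈ S, e σ i : ℤ) : K) * wS S := by
    intro σ S
    change σ (∏ i ∈ S, w i) = _
    rw [map_prod, Int.cast_prod, ← Finset.prod_mul_distrib]
    exact Finset.prod_congr rfl fun i _ => hew σ i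
  have heS : ∀ (σ : G) (S : Finset (Fin k)), ∏ i ∈ S, e σ i = 1 ∨ ∏ i ∈ S, e σ i = -1 := by
    intro σ S
    induction S using Finset.induction_on with
    | empty => left; rw [Finset.prod_empty]
    | insert a S ha ih =>
      rw [Finset.prod_insert ha]
      rcases he σ a with h1 | h1 <;> rcases ih with h2 | h2 <;> rw [h1, h2] <;> simp
  have hcharK : CharZero K := charZero_of_C K
  let H : Finset (Fin k) → Subgroup G := fun S => MulAction.stabilizer G (wS S)
  have hmem : ∀ (σ : G) S, σ ∈ H S ↔ ∏ i ∈ S, e σ i = 1 := by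
    intro σ S
    rw [MulAction.mem_stabilizer_iff]
    change σ (wS S) = wS S ↔ _
    rw [hσS]
    constructor
    · intro h1
      rcases heS σ S with h2 | h2
      · exact h2
      · rw [h2] at h1
        push_cast at h1
        have h3 : (2 : K) * wS S = 0 := by linear_combination -h1
        rcases mul_eq_zero.1 h3 with h4 | h4
        · exact absurd h4 two_ne_zero
        · exact absurd h4 (hwS0 S)
    · intro h1
      rw [h1, Int.cast_one, one_mul]
  -- the products of signs
  have hprod1 : ∀ σ : G, ∏ i, (1 + (e σ i : ℚ)) = if σ = 1 then 2 ^ k else 0 := by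
    intro σ
    by_cases hσ : σ = 1
    · rw [if_pos hσ]
      have h7 : ∀ i, e σ i = 1 := by
        intro i
        rcases he σ i with h8 | h8
        · exact h8
        · exfalso
          have h9 := hew σ i
          rw [h8, hσ] at h9
          have h10 : w i = -w i := by
            have : (1 : G) (w i) = w i := rfl
            rw [this] at h9
            push_cast at h9
            linear_combination h9
          have h11 : (2 : K) * w i = 0 := by linear_combination h10
          rcases mul_eq_zero.1 h11 with h12 | h12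
          · exact absurd h12 two_ne_zero
          · exact absurd h12 (hw0 i)
      rw [Finset.prod_congr rfl fun i _ => by rw [h7 i]]
      rw [Finset.prod_const, Finset.card_univ, Fintype.card_fin]
      norm_num
    · rw [if_neg hσ]
      obtain ⟨i, hi⟩ : ∃ i, e σ i ≠ 1 := by
        by_contra hcon
        push Not at hcon
        apply hσ
        have h7 : ∀ x : K, σ x = x := by
          have h8 : IntermediateField.adjoin k₀ (Set.range w) ≤
              IntermediateField.fixedField (Subgroup.zpowers σ) := by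
            rw [IntermediateField.adjoin_le_iff]
            rintro _ ⟨i, rfl⟩
            rw [SetLike.mem_coe, IntermediateField.mem_fixedField_iff]
            intro τ hτ
            have h9 : σ (w i) = w i := by rw [hew, hcon i, Int.cast_one, one_mul]
            have h10 : Subgroup.zpowers σ ≤ MulAction.stabilizer G (w i) := by
              rw [Subgroup.zpowers_le, MulAction.mem_stabilizer_iff]
              exact h9
            exact h10 hτ
          intro x
          have h11 : x ∈ IntermediateField.fixedField (Subgroup.zpowers σ) := by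
            apply h8
            rw [hgen]
            trivial
          exact (IntermediateField.mem_fixedField_iff _ _).1 h11 σ (Subgroup.mem_zpowers σ)
        ext x
        exact h7 x
      have h7 : e σ i = -1 := (he σ i).resolve_left hi
      apply Finset.prod_eq_zero (Finset.mem_univ i)
      rw [h7]
      norm_num
  have hmul : ∀ (σ τ : G) i, e (σ * τ) i = e σ i * e τ i := by
    intro σ τ i
    have h1 : (σ * τ) (w i) = σ (τ (w i)) := rfl
    have h2 : σ ((e τ i : K) * w i) = (e τ i : K) * σ (w i) := by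
      rw [map_mul, map_intCast]
    rw [hew, hew τ, h2, hew σ, ← mul_assoc] at h1
    have h3 := mul_right_cancel₀ (hw0 i) h1
    have h4 : ((e (σ * τ) i : ℤ) : K) = ((e σ i * e τ i : ℤ) : K) := by
      rw [h3]
      push_cast
      ring
    exact Int.cast_injective h4
  -- the coefficients
  let γ : Finset (Fin k) → ℚ := fun S => ∑ σ, Γ σ * ∏ i ∈ S, (e σ i : ℚ)
  have hγ : ∀ S, γ S ≠ 0 → ∑ σ, (Γ σ : K) * σ (wS S) ≠ 0 := by
    intro S hS h1
    have h2 : ((γ S : ℚ) : K) * wS S = 0 := by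
      rw [← h1]
      simp only [γ]
      rw [Rat.cast_sum, Finset.sum_mul]
      refine Finset.sum_congr rfl fun σ _ => ?_
      rw [hσS]
      push_cast
      ring
    rcases mul_eq_zero.1 h2 with h3 | h3
    · exact hS (by exact_mod_cast h3)
    · exact hwS0 S h3
  -- the expansion
  have hΓ : ∀ σ : G, ∑ S : Finset (Fin k), γ S * ∏ i ∈ S, (e σ i : ℚ) = 2 ^ k * Γ σ := by
    intro σ
    have h1 : ∀ S : Finset (Fin k), γ S * ∏ i ∈ S, (e σ i : ℚ) =
        ∑ τ : G, Γ τ * ∏ i ∈ S, (e (τ * σ) i : ℚ) := by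
      intro S
      simp only [γ]
      rw [Finset.sum_mul]
      refine Finset.sum_congr rfl fun τ _ => ?_
      rw [mul_assoc, ← Finset.prod_mul_distrib]
      congr 1
      refine Finset.prod_congr rfl fun i _ => ?_
      rw [hmul]
      push_cast
      ring
    simp only [h1]
    rw [Finset.sum_comm]
    have h2 : ∀ τ : G, ∑ S : Finset (Fin k), Γ τ * ∏ i ∈ S, (e (τ * σ) i : ℚ) =
        if τ * σ = 1 then 2 ^ k * Γ τ else 0 := by
      intro τ
      rw [← Finset.mul_sum]
      have h3 : ∑ S : Finset (Fin k), ∏ i ∈ S, (e (τ * σ) i : ℚ) =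
          ∏ i, (1 + (e (τ * σ) i : ℚ)) := by
        rw [Finset.prod_one_add, Finset.powerset_univ]
      rw [h3, hprod1]
      by_cases h4 : τ * σ = 1
      · rw [if_pos h4, if_pos h4]
        ring
      · rw [if_neg h4, if_neg h4, mul_zero]
    rw [Finset.sum_congr rfl fun τ _ => h2 τ]
    have h3 : ∀ τ : G, (if τ * σ = 1 then 2 ^ k * Γ τ else 0) =
        if τ = σ then 2 ^ k * Γ τ else 0 := by
      intro τ
      have h4 : σ * σ = 1 := by
        have h5 : ∀ i, e (σ * σ) i = 1 := by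
          intro i
          rw [hmul]
          rcases he σ i with h6 | h6 <;> rw [h6] <;> norm_num
        by_contra h7
        have h8 := hprod1 (σ * σ)
        rw [if_neg h7, Finset.prod_congr rfl fun i _ => by rw [h5 i], Finset.prod_const] at h8
        norm_num at h8
      have h5 : τ * σ = 1 ↔ τ = σ := by
        constructor
        · intro h6
          rw [← mul_right_cancel_iff (a := σ), h6, h4]
        · rintro rfl
          exact h4
      by_cases h6 : τ = σ
      · rw [if_pos h6, if_pos (h5.2 h6)]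
      · rw [if_neg h6, if_neg fun h7 => h6 (h5.1 h7)]
    rw [Finset.sum_congr rfl fun τ _ => h3 τ, Finset.sum_ite_eq' Finset.univ σ,
      if_pos (Finset.mem_univ _)]
  -- the sum of the subgroups
  obtain ⟨T, hT⟩ : ∃ T : Finset (Finset (Fin k)), T = Finset.univ.filter fun S => γ S ≠ 0 :=
    ⟨_, rfl⟩
  let H' : Option T → Subgroup G := fun o => o.elim ⊤ (fun S => H S.1)
  let c : Option T → ℚ := fun o => o.elim (-((∑ S, γ S) / 2 ^ k)) (fun S => 2 * γ S.1 / 2 ^ k)
  have hmemσ : ∀ (σ : G) S, σ ∈ H S ↔ σ (wS S) = wS S := fun σ S => MulAction.mem_stabilizer_iff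
  refine con_lin _ Γ (fun (o : Option T) σ => if σ ∈ H' o then c o else 0) ?_ ξ ?_
  · intro σ
    symm
    rw [Fintype.sum_option]
    have h1 : ∀ S : T, (if σ ∈ H' (some S) then c (some S) else 0) =
        (γ S.1 * (1 + ∏ i ∈ S.1, (e σ i : ℚ))) / 2 ^ k := by
      intro S
      have h2 : (∏ i ∈ S.1, (e σ i : ℚ)) = ((∏ i ∈ S.1, e σ i : ℤ) : ℚ) := by push_cast; rfl
      rw [h2]
      by_cases hS : σ ∈ H S.1
      · have hS' : σ ∈ H' (some S) := hS
        rw [if_pos hS', (hmem σ S.1).1 hS]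
        simp only [c, Option.elim]
        push_cast
        ring
      · have hS' : σ ∉ H' (some S) := hS
        have h3 : ∏ i ∈ S.1, e σ i = -1 := (heS σ S.1).resolve_left fun h => hS ((hmem σ S.1).2 h)
        rw [h3, if_neg hS']
        push_cast
        ring
    have htop : σ ∈ H' none := Subgroup.mem_top σ
    rw [if_pos htop, Finset.sum_congr rfl fun S _ => h1 S]
    have h4 : ∑ S : T, (γ S.1 * (1 + ∏ i ∈ S.1, (e σ i : ℚ))) / 2 ^ k =
        ∑ S, (γ S * (1 + ∏ i ∈ S, (e σ i : ℚ))) / 2 ^ k := by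
      rw [Finset.sum_coe_sort T (fun S => (γ S * (1 + ∏ i ∈ S, (e σ i : ℚ))) / 2 ^ k), hT]
      apply Finset.sum_filter_of_ne
      intro S _ hS h5
      apply hS
      rw [h5]
      ring
    rw [h4, ← Finset.sum_div]
    simp only [mul_add, mul_one]
    rw [Finset.sum_add_distrib, hΓ]
    have hk : (2 : ℚ) ^ k ≠ 0 := pow_ne_zero _ two_ne_zero
    simp only [c, Option.elim]
    field_simp
    ring
  · intro o
    cases o with
    | none =>
      refine ⟨c none, fun σ => 1, ?_, ?_⟩
      · intro σ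
        have htop : σ ∈ H' none := Subgroup.mem_top σ
        rw [if_pos htop, mul_one]
      · exact conh_one k₀ 1 hfin hgal ξ (fun _ => 1) (fun σ _ => rfl)
          (fun σ h => absurd (map_one σ) h) k₀ le_rfl (one_mem _) hk₀
    | some S =>
      have hmemT : ∀ z, z ∈ T → γ z ≠ 0 := by
        intro z hz
        rw [hT, Finset.mem_filter] at hz
        exact hz.2
      obtain ⟨Δ, h1, h0, hC⟩ := hcon S.1 (hγ S.1 (hmemT _ S.2))
      refine ⟨c (some S), Δ, ?_, hC⟩
      intro σ
      by_cases h : σ (wS S.1) = wS S.1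
      · have h5 : σ ∈ H' (some S) := (hmemσ σ S.1).2 h
        rw [if_pos h5, h1 σ h, mul_one]
      · have h5 : σ ∉ H' (some S) := fun h' => h ((hmemσ σ S.1).1 h')
        rw [if_neg h5, h0 σ h, mul_zero]

end

theorem t_KCON : S_KCON := by
  classical
  intro K _ _ k₀ k w hw hw0 hgen hk₀ _ Γ N ξ hcon
  exact kcon hw hw0 hgen Γ hk₀ ξ fun S hS =>
    ⟨_, fun σ h => if_pos h, fun σ h => if_neg h, hcon S hS⟩

end Pool.Agent.J4H57.LC
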